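import Pool.Agent.Helper35.PI.St1

set_option autoImplicit false

namespace Helper71.PI

open Helper35.PI
open scoped BigOperators

private noncomputable def S4 {n : ℕ} (f : Fin n → Fin n → Fin n → Fin n → ℝ) : ℝ :=
  ∑ i, ∑ j, ∑ k, ∑ l, f i j k l

private theorem s12 {n : ℕ} (f : Fin n → Fin n → Fin n → Fin n → ℝ) :
    S4 (fun i j k l => f j i k l) = S4 f := by
  unfold S4
  rw [Finset.sum_comm]

private theorem s23 {n : ℕ} (f : Fin n → Fin n → Fin n → Fin n → ℝ) :
    S4 (fun i j k l => f i k j l) = S4 f := by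
  unfold S4
  refine Finset.sum_congr rfl fun i _ => ?_
  rw [Finset.sum_comm]

private theorem s34 {n : ℕ} (f : Fin n → Fin n → Fin n → Fin n → ℝ) :
    S4 (fun i j k l => f i j l k) = S4 f := by
  unfold S4
  refine Finset.sum_congr rfl fun i _ => Finset.sum_congr rfl fun j _ => ?_
  rw [Finset.sum_comm]

private theorem p_klij {n : ℕ} (f : Fin n → Fin n → Fin n → Fin n → ℝ) :
    S4 (fun i j k l => f k l i j) = S4 f :=
  (s23 (fun i j k l => f j l i k)).trans ((s34 (fun i j k l => f j k i l)).trans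
    ((s12 (fun i j k l => f i k j l)).trans (s23 f)))

private theorem p_kilj {n : ℕ} (f : Fin n → Fin n → Fin n → Fin n → ℝ) :
    S4 (fun i j k l => f k i l j) = S4 f :=
  (s23 (fun i j k l => f j i l k)).trans ((s34 (fun i j k l => f j i k l)).trans (s12 f))

private theorem p_kjli {n : ℕ} (f : Fin n → Fin n → Fin n → Fin n → ℝ) :
    S4 (fun i j k l => f k j l i) = S4 f :=
  (s12 (fun i j k l => f k i l j)).trans (p_kilj f)

private theorem p_jkli {n : ℕ} (f : Fin n → Fin n → Fin n → Fin n → ℝ) :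
    S4 (fun i j k l => f j k l i) = S4 f :=
  (s12 (fun i j k l => f i k l j)).trans ((s23 (fun i j k l => f i j l k)).trans (s34 f))

private theorem S4_add {n : ℕ} (f g : Fin n → Fin n → Fin n → Fin n → ℝ) :
    S4 (fun i j k l => f i j k l + g i j k l) = S4 f + S4 g := by
  simp only [S4, Finset.sum_add_distrib]

private theorem S4_mul {n : ℕ} (c : ℝ) (f : Fin n → Fin n → Fin n → Fin n → ℝ) :
    S4 (fun i j k l => c * f i j k l) = c * S4 f := by
  simp only [S4, Finset.mul_sum]

/-- the two cyclic sums -/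
private noncomputable def F1 {n N : ℕ} (m : Fin n → Fin n → ℝ) (B : Fin n → Fin n → EE N)
    (i j k l : Fin n) : ℝ := m i j * m j k * inner ℝ (B k l) (B l i)

private noncomputable def F2 {n N : ℕ} (m : Fin n → Fin n → ℝ) (B : Fin n → Fin n → EE N)
    (i j k l : Fin n) : ℝ := m i j * m k l * inner ℝ (B j k) (B l i)

private theorem Qq_eq {n N : ℕ} (m : Fin n → Fin n → ℝ) (B : Fin n → Fin n → EE N)
    (hm : SymS m) (hB : SymV B) : Qc m B = 2 * S4 (F1 m B) - 2 * S4 (F2 m B) := by
  have h1 : Qc m B = S4 (fun i j k l => (F1 m B k i l j + F1 m B k j l i)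
      + (-1) * (F2 m B i k j l + F2 m B k j l i)) := by
    unfold Qc S4
    refine Finset.sum_congr rfl fun i _ => Finset.sum_congr rfl fun j _ => ?_
    rw [← real_inner_self_eq_norm_sq, sum_inner]
    refine Finset.sum_congr rfl fun k _ => ?_
    rw [inner_sum]
    refine Finset.sum_congr rfl fun l _ => ?_
    simp only [F1, F2, inner_sub_left, inner_sub_right, real_inner_smul_left, real_inner_smul_right]
    have e1 : (inner ℝ (B l j) (B j k) : ℝ) = inner ℝ (B k j) (B l j) := by
      rw [hB j k, real_inner_comm]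
    have e2 : (inner ℝ (B l i) (B i k) : ℝ) = inner ℝ (B i k) (B i l) := by
      rw [hB l i, real_inner_comm]
    have e3 : (inner ℝ (B k j) (B l i) : ℝ) = inner ℝ (B k j) (B i l) := by
      rw [hB l i]
    have e4 : (inner ℝ (B j l) (B i k) : ℝ) = inner ℝ (B i k) (B l j) := by
      rw [hB j l, real_inner_comm]
    rw [e1, e2, e3, e4, hm k i, hm l i, hm l j]
    ring
  rw [h1, S4_add, S4_mul, S4_add, S4_add, p_kilj (F1 m B), p_kjli (F1 m B),
    s23 (F2 m B), p_kjli (F2 m B)]
  ring

private theorem Pq_eq {n N : ℕ} (m : Fin n → Fin n → ℝ) (B : Fin n → Fin n → EE N) :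
    Pq m B = S4 (fun i j k l => m i j * m k l * inner ℝ (B i j) (B k l)) := by
  unfold Pq sg S4
  rw [← real_inner_self_eq_norm_sq, sum_inner]
  refine Finset.sum_congr rfl fun i _ => ?_
  rw [sum_inner]
  refine Finset.sum_congr rfl fun j _ => ?_
  rw [inner_sum]
  refine Finset.sum_congr rfl fun k _ => ?_
  rw [inner_sum]
  refine Finset.sum_congr rfl fun l _ => ?_
  rw [real_inner_smul_left, real_inner_smul_right]
  ring

private theorem sq_eq {n : ℕ} (m : Fin n → Fin n → ℝ) :
    S4 (fun i j k l => m i j ^ 2 * m k l ^ 2) = Helper35.PI.sq m ^ 2 := by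
  unfold S4 Helper35.PI.sq
  rw [pow_two, Finset.sum_mul]
  refine Finset.sum_congr rfl fun i _ => ?_
  rw [Finset.sum_mul]
  refine Finset.sum_congr rfl fun j _ => ?_
  rw [Finset.mul_sum]
  refine Finset.sum_congr rfl fun k _ => ?_
  rw [Finset.mul_sum]

/-- the augmented family `(√t m, B)` -/
private noncomputable def aug {n N : ℕ} (c : ℝ) (m : Fin n → Fin n → ℝ) (B : Fin n → Fin n → EE N)
    (i j : Fin n) : EE (N + 1) :=
  WithLp.toLp 2 (Fin.cons (c * m i j) (fun b => B i j b))

private theorem aug_inner {n N : ℕ} (c : ℝ) (m : Fin n → Fin n → ℝ) (B : Fin n → Fin n → EE N)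
    (i j k l : Fin n) :
    (inner ℝ (aug c m B i j) (aug c m B k l) : ℝ)
      = c ^ 2 * (m i j * m k l) + inner ℝ (B i j) (B k l) := by
  simp only [aug, PiLp.inner_apply, Fin.sum_univ_succ, Fin.cons_zero, Fin.cons_succ]
  simp only [RCLike.inner_apply, conj_trivial]
  ring

theorem hLLA (h4 : StLL4) : StLLA := by
  intro n N m B hm hB t ht
  have hc : Real.sqrt t ^ 2 = t := Real.sq_sqrt ht
  have hin := aug_inner (Real.sqrt t) m B
  rw [hc] at hin
  have hsym : SymV (aug (Real.sqrt t) m B) := by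
    intro i j
    unfold aug
    rw [hm i j, hB i j]
  have h := h4 n (N + 1) (aug (Real.sqrt t) m B) hsym
  have hr : rq (aug (Real.sqrt t) m B) = t * Helper35.PI.sq m + rq B := by
    unfold rq Helper35.PI.sq
    rw [Finset.mul_sum, ← Finset.sum_add_distrib]
    refine Finset.sum_congr rfl fun i _ => ?_
    rw [Finset.mul_sum, ← Finset.sum_add_distrib]
    refine Finset.sum_congr rfl fun j _ => ?_
    rw [← real_inner_self_eq_norm_sq, hin, real_inner_self_eq_norm_sq]
    ring
  have hS : Sq (aug (Real.sqrt t) m B)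
      = t ^ 2 * Helper35.PI.sq m ^ 2 + 2 * t * (Pq m B + Qc m B) + Sq B := by
    have e1 : Sq (aug (Real.sqrt t) m B) = S4 (fun i j k l =>
        (((t ^ 2 * (m i j ^ 2 * m k l ^ 2) + 2 * t * (m i j * m k l * inner ℝ (B i j) (B k l)))
        + (2 * t * F1 m B i j k l + 2 * t * F1 m B k l i j))
        + ((-(2 * t)) * F2 m B i j k l + (-(2 * t)) * F2 m B j k l i))
        + (inner ℝ (B i j) (B k l) ^ 2
          + 2 * (inner ℝ (B i j) (B j k) * inner ℝ (B k l) (B l i)
            - inner ℝ (B i j) (B k l) * inner ℝ (B j k) (B l i)))) := by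
      unfold Sq S4
      refine Finset.sum_congr rfl fun i _ => Finset.sum_congr rfl fun j _ =>
        Finset.sum_congr rfl fun k _ => Finset.sum_congr rfl fun l _ => ?_
      rw [hin, hin, hin, hin]
      simp only [F1, F2]
      rw [real_inner_comm (B k l) (B i j)]
      ring
    rw [e1, S4_add, S4_add, S4_add, S4_add, S4_add, S4_add, S4_mul, S4_mul, S4_mul, S4_mul, S4_mul,
      S4_mul, p_klij (F1 m B), p_jkli (F2 m B), sq_eq, ← Pq_eq, Qq_eq m B hm hB]
    unfold Sq S4
    ring
  rw [hS, hr] at h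
  linarith

end Helper71.PI
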